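import Pool.Agent.Lib.MP_682396_ag.Classes

/-!
# Finiteness of rigid maximal Cohen-Macaulay modules in dimension one

For every one-dimensional Noetherian local domain `R` (complete or not, of any characteristic)
and every bound `N` there are, up to isomorphism, only finitely many finitely generated rigid
maximal Cohen-Macaulay `R`-modules of rank at most `N`.
-/

set_option autoImplicit false

open Module IsLocalRing
open scoped Pointwise

universe u

namespace Pool.Agent.Results.MP_682396_ag.RigidFiniteDimOne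

open Pool.Agent.Lib.MP_682396_ag

theorem result :
    ∀ (R : Type u) [CommRing R] [IsDomain R] [IsNoetherianRing R] [IsLocalRing R],
      ringKrullDim R = 1 →
      ∀ N : ℕ, ∃ S : Set (Σ k : ℕ, Submodule R (Fin k → R)), S.Finite ∧
        ∀ (M : Type u) [AddCommGroup M] [Module R M],
          Module.Finite R M → Nontrivial M →
          (∃ rs : List R, (∀ r ∈ rs, r ∈ IsLocalRing.maximalIdeal R) ∧
              RingTheory.Sequence.IsWeaklyRegular M rs ∧
              ((rs.length : ℕ∞) : WithBot ℕ∞) = ringKrullDim R) →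
          (∀ (E : Type u) [AddCommGroup E] [Module R E] (f : M →ₗ[R] E) (g : E →ₗ[R] M),
              Function.Injective f → Function.Surjective g →
              LinearMap.range f = LinearMap.ker g →
              ∃ s : M →ₗ[R] E, g ∘ₗ s = LinearMap.id) →
          Module.finrank R M ≤ N →
          ∃ p ∈ S, Nonempty (M ≃ₗ[R] (Fin p.1 → R) ⧸ p.2) := by
  intro R _ _ _ _ hdim N
  have hd1 : Ring.KrullDimLE 1 R := Ring.krullDimLE_iff.mpr (by simp [hdim])
  have hnf : ¬ IsField R := by
    intro hf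
    have h0 := ringKrullDim_eq_zero_of_isField hf
    rw [hdim] at h0
    exact one_ne_zero h0
  obtain ⟨x, hx0, hxm, hB⟩ := exists_parameter hnf
  -- the relation of isomorphism on quotients of finite free modules
  let st : Setoid (Σ k : ℕ, Submodule R (Fin k → R)) :=
    { r := fun p q => Nonempty (((Fin p.1 → R) ⧸ p.2) ≃ₗ[R] (Fin q.1 → R) ⧸ q.2)
      iseqv := ⟨fun p => ⟨LinearEquiv.refl _ _⟩, fun ⟨e⟩ => ⟨e.symm⟩,
        fun ⟨e⟩ ⟨e'⟩ => ⟨e.trans e'⟩⟩ }
  obtain ⟨S, hS, hSr⟩ := exists_finite_repr st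
    (fun p => IsTorsionFree R ((Fin p.1 → R) ⧸ p.2) ∧ finrank R ((Fin p.1 → R) ⧸ p.2) ≤ N ∧
      Function.Surjective (QuotSMulTop.map x :
        (((Fin p.1 → R) ⧸ p.2) →ₗ[R] ((Fin p.1 → R) ⧸ p.2)) →ₗ[R] _)) (by
    intro p hp
    -- infinitely many have the same rank
    obtain ⟨n, hn⟩ := Finite.exists_infinite_fiber
      (fun i : ℕ => (⟨finrank R ((Fin (p i).1 → R) ⧸ (p i).2),
        Nat.lt_succ_of_le (hp i).2.1⟩ : Fin (N + 1)))
    let f := Infinite.natEmbedding ((fun i : ℕ => (⟨finrank R ((Fin (p i).1 → R) ⧸ (p i).2),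
        Nat.lt_succ_of_le (hp i).2.1⟩ : Fin (N + 1))) ⁻¹' {n})
    have hf : ∀ i, finrank R ((Fin (p (f i)).1 → R) ⧸ (p (f i)).2) = n := by
      intro i
      have h1 := (f i).2
      rw [Set.mem_preimage, Set.mem_singleton_iff] at h1
      exact congrArg Fin.val h1
    have htf : ∀ i, IsTorsionFree R ((Fin (p (f i)).1 → R) ⧸ (p (f i)).2) := fun i => (hp _).1
    obtain ⟨i, j, hij, hiso⟩ := exists_iso_of_seq hx0 hxm hB
      (fun i => (Fin (p (f i)).1 → R) ⧸ (p (f i)).2) n hf (fun i => (hp _).2.2)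
    exact ⟨f i, f j, fun h => hij (f.injective (Subtype.ext h)), hiso⟩)
  refine ⟨S, hS, ?_⟩
  intro M _ _ hfin _ hMCM hrig hrank
  -- torsion-freeness
  obtain ⟨rs, hrs, hreg, hlen⟩ := hMCM
  have hlen1 : rs.length = 1 := by
    rw [hdim] at hlen
    exact_mod_cast hlen
  obtain ⟨r, rfl⟩ := List.length_eq_one_iff.mp hlen1
  have htf : IsTorsionFree R M := isTorsionFree_of_regular (hrs r (List.mem_singleton_self r))
    ((RingTheory.Sequence.isWeaklyRegular_singleton_iff M r).mp hreg)
  -- a presentation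
  obtain ⟨k, g, hg⟩ := Module.Finite.exists_fin' R M
  let e : M ≃ₗ[R] ((Fin k → R) ⧸ LinearMap.ker g) := (g.quotKerEquivOfSurjective hg).symm
  have hrig' := split_of_equiv e hrig
  have htf' : IsTorsionFree R ((Fin k → R) ⧸ LinearMap.ker g) :=
    Function.Injective.moduleIsTorsionFree e.symm e.symm.injective (fun a m => map_smul _ _ _)
  have hrank' : finrank R ((Fin k → R) ⧸ LinearMap.ker g) ≤ N := by
    rw [← e.finrank_eq]
    exact hrank
  obtain ⟨p, hpS, ⟨e'⟩⟩ := hSr ⟨k, LinearMap.ker g⟩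
    ⟨htf', hrank', surjective_of_rigid x (IsSMulRegular.of_ne_zero hx0) hrig'⟩
  exact ⟨p, hpS, ⟨e.trans e'⟩⟩

end Pool.Agent.Results.MP_682396_ag.RigidFiniteDimOne
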