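import Pool.Agent.Lib.MP_682396_ag.Gen.Main

/-!
# Finiteness of rigid maximal Cohen-Macaulay modules, singular loci of arbitrary dimension

Let `R` be a complete Noetherian local domain whose residue field `k` has characteristic zero, or
which has characteristic `p` and `k` perfect, and let the singular locus of `R` have dimension at
most `s`, where `s ≥ 2` (for `s ≤ 1` all rigid modules are treated in `RigidFiniteSingCurve`).  For every bound `N` there are up to isomorphism only finitely many rigid maximal
Cohen-Macaulay `R`-modules `M` of rank at most `N` such that `End_R(M)` has depth at least `s + 2`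
or `Ext^k_R(M, M) = 0` for all `1 ≤ k ≤ s`.
-/

set_option autoImplicit false

open Module IsLocalRing
open scoped Pointwise

universe u

namespace Pool.Agent.Results.MP_682396_ag.RigidFiniteEndDepth

open Pool.Agent.Lib.MP_682396_ag

theorem result :
    ∀ (R : Type u) [CommRing R] [IsDomain R] [IsNoetherianRing R] [IsLocalRing R],
      IsAdicComplete (IsLocalRing.maximalIdeal R) R →
      (CharZero (IsLocalRing.ResidueField R) ∨
        ∃ p : ℕ, p.Prime ∧ CharP R p ∧ ∀ a : IsLocalRing.ResidueField R, ∃ b, b ^ p = a) →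
      ∀ s : ℕ, 2 ≤ s →
      (∀ (p : Ideal R) [p.IsPrime], ¬ IsRegularLocalRing (Localization.AtPrime p) →
          ringKrullDim (R ⧸ p) ≤ ((s : ℕ∞) : WithBot ℕ∞)) →
      ∀ N : ℕ, ∃ S : Set (Σ k : ℕ, Submodule R (Fin k → R)), S.Finite ∧
        ∀ (M : Type u) [AddCommGroup M] [Module R M],
          Module.Finite R M → Nontrivial M →
          (∃ rs : List R, (∀ r ∈ rs, r ∈ IsLocalRing.maximalIdeal R) ∧
              RingTheory.Sequence.IsWeaklyRegular M rs ∧
              ((rs.length : ℕ∞) : WithBot ℕ∞) = ringKrullDim R) →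
          (∀ (E : Type u) [AddCommGroup E] [Module R E] (f : M →ₗ[R] E) (g : E →ₗ[R] M),
              Function.Injective f → Function.Surjective g →
              LinearMap.range f = LinearMap.ker g →
              ∃ s : M →ₗ[R] E, g ∘ₗ s = LinearMap.id) →
          ((∃ rs : List R, (∀ r ∈ rs, r ∈ IsLocalRing.maximalIdeal R) ∧
              RingTheory.Sequence.IsWeaklyRegular (M →ₗ[R] M) rs ∧ rs.length = s + 2) ∨
            (∀ k : ℕ, 1 ≤ k → k ≤ s → Subsingleton
              (CategoryTheory.Abelian.Ext (ModuleCat.of R M) (ModuleCat.of R M) k))) →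
          Module.finrank R M ≤ N →
          ∃ p ∈ S, Nonempty (M ≃ₗ[R] (Fin p.1 → R) ⧸ p.2) := by
  intro R _ _ _ _ hcomplete hchar s _ hsing N
  obtain ⟨S, hS, hSM⟩ := finite_main R hcomplete hchar s hsing N
  refine ⟨S, hS, fun M _ _ hfin hnt hdep hrig hcond hrank =>
    hSM M hfin hnt hdep hrig ?_ hrank⟩
  rcases hcond with h | h
  · exact Or.inr (Or.inr (Or.inr (Or.inl h)))
  · exact Or.inr (Or.inr (Or.inr (Or.inr h)))

end Pool.Agent.Results.MP_682396_ag.RigidFiniteEndDepth
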