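import Pool.Agent.Lib.MP_682396_ag.Gen.Main

/-!
# Finiteness of rigid maximal Cohen-Macaulay modules over normal Gorenstein rings, dimension four

For every complete normal Gorenstein local domain `R` of dimension at most four whose residue field
`k` has characteristic zero, or which has characteristic `p` and `k` perfect, and for every bound
`N`, there are up to isomorphism only finitely many rigid maximal Cohen-Macaulay `R`-modules of
rank at most `N`.
-/

set_option autoImplicit false

open Module IsLocalRing
open scoped Pointwise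

universe u

namespace Pool.Agent.Results.MP_682396_ag.RigidFiniteGorensteinFour

open Pool.Agent.Lib.MP_682396_ag

theorem result :
    ∀ (R : Type u) [CommRing R] [IsDomain R] [IsNoetherianRing R] [IsLocalRing R],
      IsAdicComplete (IsLocalRing.maximalIdeal R) R →
      (CharZero (IsLocalRing.ResidueField R) ∨
        ∃ p : ℕ, p.Prime ∧ CharP R p ∧ ∀ a : IsLocalRing.ResidueField R, ∃ b, b ^ p = a) →
      IsIntegrallyClosed R →
      ringKrullDim R ≤ 4 →
      (∃ rs : List R, (∀ r ∈ rs, r ∈ IsLocalRing.maximalIdeal R) ∧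
          RingTheory.Sequence.IsWeaklyRegular R rs ∧
          ((rs.length : ℕ∞) : WithBot ℕ∞) = ringKrullDim R) →
      (∀ rs : List R, (∀ r ∈ rs, r ∈ IsLocalRing.maximalIdeal R) →
          ((rs.length : ℕ∞) : WithBot ℕ∞) = ringKrullDim R →
          IsLocalRing.maximalIdeal R ≤ (Ideal.ofList rs).radical →
          InfIrred (Ideal.ofList rs)) →
      ∀ N : ℕ, ∃ S : Set (Σ k : ℕ, Submodule R (Fin k → R)), S.Finite ∧
        ∀ (M : Type u) [AddCommGroup M] [Module R M],
          Module.Finite R M → Nontrivial M →
          (∃ rs : List R, (∀ r ∈ rs, r ∈ IsLocalRing.maximalIdeal R) ∧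
              RingTheory.Sequence.IsWeaklyRegular M rs ∧
              ((rs.length : ℕ∞) : WithBot ℕ∞) = ringKrullDim R) →
          (∀ (E : Type u) [AddCommGroup E] [Module R E] (f : M →ₗ[R] E) (g : E →ₗ[R] M),
              Function.Injective f → Function.Surjective g →
              LinearMap.range f = LinearMap.ker g →
              ∃ s : M →ₗ[R] E, g ∘ₗ s = LinearMap.id) →
          Module.finrank R M ≤ N →
          ∃ p ∈ S, Nonempty (M ≃ₗ[R] (Fin p.1 → R) ⧸ p.2) := by
  intro R _ _ _ _ hcomplete hchar hnormal h4 hCM hirr N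
  -- the dimension is a natural number
  obtain ⟨h, hh⟩ : ∃ h : ℕ, (maximalIdeal R).height = h := by
    have h1 : (maximalIdeal R).height ≠ ⊤ := Ideal.height_ne_top_of_isPrime
    exact ⟨(maximalIdeal R).height.toNat, (ENat.natCast_toNat h1).symm⟩
  have hdim : ringKrullDim R = ((h : ℕ∞) : WithBot ℕ∞) := by
    rw [← IsLocalRing.maximalIdeal_height_eq_ringKrullDim, hh]
  obtain ⟨S, hS, hSM⟩ := finite_main R hcomplete hchar h (fun p _ _ => by
    rw [← hdim]
    exact ringKrullDim_quotient_le p) N
  exact ⟨S, hS, fun M _ _ hfin hnt hdep hrig hrank =>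
    hSM M hfin hnt hdep hrig (Or.inr (Or.inr (Or.inl ⟨h4, hnormal, hCM, hirr⟩))) hrank⟩

end Pool.Agent.Results.MP_682396_ag.RigidFiniteGorensteinFour
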