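import Pool.Agent.Lib.MP_682396_ag.Gen.Main

/-!
# Finiteness of rigid maximal Cohen-Macaulay modules, singular locus of dimension at most one

For every complete Noetherian local domain `R` whose residue field `k` has characteristic zero, or
which has characteristic `p` and `k` perfect, such that `R` has dimension at most two or the
singular locus of `R` has dimension at most one, and for every bound `N`, there are up to
isomorphism only finitely many rigid maximal Cohen-Macaulay `R`-modules of rank at most `N`.
-/

set_option autoImplicit false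

open Module IsLocalRing
open scoped Pointwise

universe u

namespace Pool.Agent.Results.MP_682396_ag.RigidFiniteSingCurve

open Pool.Agent.Lib.MP_682396_ag

theorem result :
    ∀ (R : Type u) [CommRing R] [IsDomain R] [IsNoetherianRing R] [IsLocalRing R],
      IsAdicComplete (IsLocalRing.maximalIdeal R) R →
      (CharZero (IsLocalRing.ResidueField R) ∨
        ∃ p : ℕ, p.Prime ∧ CharP R p ∧ ∀ a : IsLocalRing.ResidueField R, ∃ b, b ^ p = a) →
      (ringKrullDim R ≤ 2 ∨
        ∀ (p : Ideal R) [p.IsPrime], ¬ IsRegularLocalRing (Localization.AtPrime p) →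
          ringKrullDim (R ⧸ p) ≤ 1) →
      ∀ N : ℕ, ∃ S : Set (Σ k : ℕ, Submodule R (Fin k → R)), S.Finite ∧
        ∀ (M : Type u) [AddCommGroup M] [Module R M],
          Module.Finite R M → Nontrivial M →
          (∃ rs : List R, (∀ r ∈ rs, r ∈ IsLocalRing.maximalIdeal R) ∧
              RingTheory.Sequence.IsWeaklyRegular M rs ∧
              ((rs.length : ℕ∞) : WithBot ℕ∞) = ringKrullDim R) →
          (∀ (E : Type u) [AddCommGroup E] [Module R E] (f : M →ₗ[R] E) (g : E →ₗ[R] M),
              Function.Injective f → Function.Surjective g →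
              LinearMap.range f = LinearMap.ker g →
              ∃ s : M →ₗ[R] E, g ∘ₗ s = LinearMap.id) →
          Module.finrank R M ≤ N →
          ∃ p ∈ S, Nonempty (M ≃ₗ[R] (Fin p.1 → R) ⧸ p.2) := by
  intro R _ _ _ _ hcomplete hchar hsing N
  have h1 : ∀ (p : Ideal R) [p.IsPrime], ¬ IsRegularLocalRing (Localization.AtPrime p) →
      ringKrullDim (R ⧸ p) ≤ (((1 : ℕ) : ℕ∞) : WithBot ℕ∞) := by
    intro p _ hp
    rcases hsing with h2 | h
    · exact dim_quotient_le_one h2 p hp
    · exact h p hp
  obtain ⟨S, hS, hSM⟩ := finite_main R hcomplete hchar 1 h1 N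
  exact ⟨S, hS, fun M _ _ hfin hnt hdep hrig hrank =>
    hSM M hfin hnt hdep hrig (Or.inl le_rfl) hrank⟩

end Pool.Agent.Results.MP_682396_ag.RigidFiniteSingCurve
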